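import Mathlib

/-!
# The x-side of (J5) for `6 ≤ ζ ≤ S`
-/

set_option autoImplicit false

namespace Pool.Agent.Helper49.HC

open Real

/-- chord bound for the logarithm -/
lemma log_chord {a b x : ℝ} (ha : 0 < a) (hab : a < b) (hx : a ≤ x) (hx' : x ≤ b) :
    ((b - x) * log a + (x - a) * log b) / (b - a) ≤ log x := by
  have hba : 0 < b - a := by linarith
  have h := strictConcaveOn_log_Ioi.concaveOn.2 (show a ∈ Set.Ioi (0 : ℝ) from ha)
    (show b ∈ Set.Ioi (0 : ℝ) from ha.trans hab)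
    (show 0 ≤ (b - x) / (b - a) from div_nonneg (by linarith) hba.le)
    (show 0 ≤ (x - a) / (b - a) from div_nonneg (by linarith) hba.le)
    (by rw [← add_div]; rw [div_eq_one_iff_eq hba.ne']; ring)
  simp only [smul_eq_mul] at h
  have e1 : (b - x) / (b - a) * a + (x - a) / (b - a) * b = x := by
    field_simp
    ring
  rw [e1] at h
  have e2 : ((b - x) * log a + (x - a) * log b) / (b - a) =
      (b - x) / (b - a) * log a + (x - a) / (b - a) * log b := by ring
  rw [e2]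
  exact h

/-- `log 6 ≥ 1.79` -/
lemma log_six : (179 : ℝ) / 100 ≤ log 6 := by
  have h1 := Real.log_two_gt_d9
  have h2 : log (6 : ℝ) = 2 * log 2 + log (3 / 2) := by
    rw [show (6 : ℝ) = 2 ^ 2 * (3 / 2) by norm_num, Real.log_mul (by norm_num) (by norm_num),
      Real.log_pow]
    norm_num
  have h3 : (404 : ℝ) / 1000 ≤ log (3 / 2) := by
    rw [Real.le_log_iff_exp_le (by norm_num)]
    have h4 := Real.exp_bound' (x := 404 / 1000) (by norm_num) (by norm_num) (n := 5) (by norm_num)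
    refine h4.trans ?_
    norm_num [Finset.sum_range_succ, Nat.factorial]
  rw [h2]
  linarith

/-- affine minorants of `n1 / ζ` on `[6, S]` -/
lemma xside_gen {m zeta S be p r : ℝ} (hm : 61 / 10 ≤ m) (hmb : m * be = S) (hbe : 18003 / 10000 ≤ be)
    (hS : 11 ≤ S) (hlog : log S = be * (1 - 1 / S) ^ 2 + 1 - 1 / S) (hz : 6 ≤ zeta) (hzS : zeta ≤ S)
    (h6 : 6 * p + r ≤ 39 / 10) (hSr : S * p + r ≤ 807 / 1000 * S - 121 / 100) :
    zeta * (p * zeta + r) ≤
      (zeta - 1) + m * (zeta * log zeta - zeta + 1) - (52 / 10 / 15) * zeta * (m - 1) := by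
  have hz0 : 0 < zeta := by linarith
  have hS0 : 0 < S := by linarith
  have hb0 : 0 < be := by linarith
  have hch := log_chord (by norm_num : (0 : ℝ) < 6) (show (6 : ℝ) < S by linarith) hz hzS
  have hS6 : 0 < S - 6 := by linarith
  rw [div_le_iff₀ hS6] at hch
  -- the two ends
  have hA6 : 39 / 10 ≤ (1 + 52 / 10 / 15) + m * (log 6 - 1 - 52 / 10 / 15) := by
    have := log_six
    nlinarith
  have hmS : m * log S = S - 2 + 1 / S + m - 1 / be := by
    rw [hlog]
    have e1 : m * (1 / S) = 1 / be := by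
      rw [← hmb]
      have : m ≠ 0 := by linarith
      field_simp
    have e2 : m * (be * (1 - 1 / S) ^ 2 + 1 - 1 / S) =
        (m * be) * (1 - 1 / S) ^ 2 + m - m * (1 / S) := by ring
    rw [e2, e1, hmb]
    field_simp
    ring
  have hAS : 807 / 1000 * S - 121 / 100 ≤ (1 + 52 / 10 / 15) + m * (log S - 1 - 52 / 10 / 15) := by
    have e1 : (1 + 52 / 10 / 15) + m * (log S - 1 - 52 / 10 / 15) =
        (1 + 52 / 10 / 15) + (S - 2 + 1 / S - 1 / be) - 52 / 10 / 15 * m := by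
      rw [mul_sub, mul_sub, hmS]
      ring
    rw [e1]
    have h1 : 1 / be ≤ 10000 / 18003 := by
      rw [div_le_div_iff₀ hb0 (by norm_num)]
      linarith
    have h2 : m ≤ S * (10000 / 18003) := by
      rw [← hmb]
      nlinarith
    have h3 : 0 < 1 / S := by positivity
    nlinarith
  -- combine
  have key : (p * zeta + r) * (S - 6) ≤
      ((1 + 52 / 10 / 15) + m * (log zeta - 1 - 52 / 10 / 15)) * (S - 6) := by
    have h1 : (S - zeta) * (6 * p + r) ≤
        (S - zeta) * ((1 + 52 / 10 / 15) + m * (log 6 - 1 - 52 / 10 / 15)) :=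
      mul_le_mul_of_nonneg_left (h6.trans hA6) (by linarith)
    have h2 : (zeta - 6) * (S * p + r) ≤
        (zeta - 6) * ((1 + 52 / 10 / 15) + m * (log S - 1 - 52 / 10 / 15)) :=
      mul_le_mul_of_nonneg_left (hSr.trans hAS) (by linarith)
    have h3 : m * ((S - zeta) * log 6 + (zeta - 6) * log S) ≤ m * (log zeta * (S - 6)) :=
      mul_le_mul_of_nonneg_left hch (by linarith)
    nlinarith
  have key2 := le_of_mul_le_mul_right key hS6
  have h4 := mul_le_mul_of_nonneg_left key2 hz0.le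
  have h5 : zeta * ((1 + 52 / 10 / 15) + m * (log zeta - 1 - 52 / 10 / 15)) + (m - 1) =
      (zeta - 1) + m * (zeta * log zeta - zeta + 1) - (52 / 10 / 15) * zeta * (m - 1) := by ring
  linarith

theorem xside_a' {m zeta S be : ℝ} (hm : 61 / 10 ≤ m) (hmb : m * be = S) (hbe : 18003 / 10000 ≤ be)
    (hS : 11 ≤ S) (hlog : log S = be * (1 - 1 / S) ^ 2 + 1 - 1 / S) (hz : 6 ≤ zeta) (hzS : zeta ≤ S) :
    zeta * (7441 / 10000 * (zeta - 6)) ≤
      (zeta - 1) + m * (zeta * log zeta - zeta + 1) - (52 / 10 / 15) * zeta * (m - 1) := by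
  have h := xside_gen (p := 7441 / 10000) (r := -(7441 / 10000 * 6)) hm hmb hbe hS hlog hz hzS
    (by norm_num) (by linarith)
  have e : zeta * (7441 / 10000 * (zeta - 6)) = zeta * (7441 / 10000 * zeta + -(7441 / 10000 * 6)) := by
    ring
  rw [e]
  exact h

theorem xside_b' {m zeta S be : ℝ} (hm : 61 / 10 ≤ m) (hmb : m * be = S) (hbe : 18003 / 10000 ≤ be)
    (hS : 11 ≤ S) (hlog : log S = be * (1 - 1 / S) ^ 2 + 1 - 1 / S) (hz : 6 ≤ zeta) (hzS : zeta ≤ S) :
    zeta * (3775 / 10000 * zeta + 8334 / 10000) ≤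
      (zeta - 1) + m * (zeta * log zeta - zeta + 1) - (52 / 10 / 15) * zeta * (m - 1) :=
  xside_gen hm hmb hbe hS hlog hz hzS (by norm_num) (by linarith)

theorem xside_a {m zeta S be : ℝ} (hm : 61 / 10 ≤ m) (hmb : m * be = S) (hbe : 18004 / 10000 ≤ be)
    (hS : 11 ≤ S) (hlog : log S = be * (1 - 1 / S) ^ 2 + 1 - 1 / S) (hz : 6 ≤ zeta) (hzS : zeta ≤ S) :
    zeta * (7441 / 10000 * (zeta - 6)) ≤
      (zeta - 1) + m * (zeta * log zeta - zeta + 1) - (52 / 10 / 15) * zeta * (m - 1) :=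
  xside_a' hm hmb (by linarith) hS hlog hz hzS

theorem xside_b {m zeta S be : ℝ} (hm : 61 / 10 ≤ m) (hmb : m * be = S) (hbe : 18004 / 10000 ≤ be)
    (hS : 11 ≤ S) (hlog : log S = be * (1 - 1 / S) ^ 2 + 1 - 1 / S) (hz : 6 ≤ zeta) (hzS : zeta ≤ S) :
    zeta * (3775 / 10000 * zeta + 8334 / 10000) ≤
      (zeta - 1) + m * (zeta * log zeta - zeta + 1) - (52 / 10 / 15) * zeta * (m - 1) :=
  xside_b' hm hmb (by linarith) hS hlog hz hzS

end Pool.Agent.Helper49.HC
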